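import Pool.Agent.X284.DS.Ex

/-!
# MP_9bb08e_al: the real closure of `ℚ(t)`, `t` infinitely large, has a dense subfield in which
`ℚ` is relatively algebraically closed

Idea of the proof. Let `F` be maximal among the subfields of `K` which contain `t` and carry a field
embedding into `ℚ((s))` which sends `t` to `s`. As `ℚ` is algebraically closed in `ℚ((s))`, it is so
in `F`. If `a < c < b` and `p` is the minimal polynomial of `c` over `F`, of degree `n`, put
`q = X (X - 1) ⋯ (X - (n - 1))` and `P = p + (q - p) / (1 + t ^ m)`. In `K` this is a tiny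
perturbation of `p`, so it has a root `y` in `(a, b)`. In `ℚ((s))` the image of `P` is
`q + (s ^ m / (1 + s ^ m)) (p' - q)`, with `p'` the image of `p`, which for large `m` is a polynomial
over `ℚ[[s]]` congruent to `q` modulo `s`, so it splits, by Hensel's lemma. Hence the embedding
extends to `F(y)`, and `y` lies in `F`.
-/

set_option autoImplicit false

namespace Pool.Agent.Results.MP_9bb08e_al.DenseSubfield

/-- The first part: the real closure of `ℚ(t)` exists. The second part: each real closed field `K`
which is algebraic over `ℚ(t)`, where `t` is infinitely large, has a dense subfield `F` in which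
`ℚ` is relatively algebraically closed. -/
theorem result :
    (∃ (K : Type) (_ : Field K) (_ : LinearOrder K) (_ : IsStrictOrderedRing K)
      (_ : IsRealClosed K) (t : K), (∀ n : ℕ, (n : K) < t) ∧
        Algebra.IsAlgebraic (IntermediateField.adjoin ℚ {t}) K) ∧
    ∀ (K : Type*) [Field K] [LinearOrder K] [IsStrictOrderedRing K] [IsRealClosed K] (t : K),
      (∀ n : ℕ, (n : K) < t) → Algebra.IsAlgebraic (IntermediateField.adjoin ℚ {t}) K →
      ∃ F : Subfield K, (∀ a b : K, a < b → ∃ f ∈ F, a < f ∧ f < b) ∧
        ∀ x ∈ F, IsAlgebraic ℚ x → ∃ q : ℚ, x = q := by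
  refine ⟨Pool.Agent.X284.DS.exists_rc, ?_⟩
  intro K _ _ _ _ t ht halg
  obtain ⟨F, -, h1, h2⟩ := Pool.Agent.X284.DS.exists_dense t ht halg
  exact ⟨F, h1, h2⟩

end Pool.Agent.Results.MP_9bb08e_al.DenseSubfield
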